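import Pool.Agent.H.MP_ec8146_lc.Glue
import Pool.Agent.H.MP_ec8146_lc.Loc

set_option autoImplicit false

namespace Pool.Agent.Results.MP_ec8146_lc.No

open Pool.Agent.H.MP_963612_co Pool.Agent.H.MP_ec8146_lc

/-- The graph `ψ(G⁺)`: `u ≠ v` are adjacent when `ψ(u,v)` or `ψ(v,u)` holds in `(G, C)`. -/
def psiGraph {c : ℕ} (ψ : Fml c 2) {V : Type} (G : SimpleGraph V) (C : Fin c → Set V) :
    SimpleGraph V :=
  SimpleGraph.fromRel fun u v => ψ.Sat G C ![u, v]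

theorem result : ∀ (c : ℕ) (ψ : Fml c 2), ∃ (U : Type) (_ : Fintype U) (H : SimpleGraph U),
    Toroidal H ∧ (∀ u, (H.neighborSet u).ncard ≤ 3) ∧
    ∀ (V : Type) (_ : Fintype V) (G : SimpleGraph V) (C : Fin c → Set V), Planar G →
      IsEmpty (H ↪g psiGraph ψ G C) := by
  intro c ψ
  obtain ⟨r, hr⟩ := locality c ψ
  choose N hN using hr
  obtain ⟨P, h2, hP⟩ := noTrans r N
  refine ⟨P.V3, inferInstance, P.H3, P.toroidal_H3, P.deg_H3 h2, fun V _ G C hG => ⟨fun f => ?_⟩⟩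
  refine hP V G hG (fun u v => ψ.Sat G C ![u, v]) (fun s S hS => hN s V G C S hS) f f.injective
    fun u v => ?_
  rw [← f.map_adj_iff, ← f.injective.ne_iff]
  exact SimpleGraph.fromRel_adj _ _ _

end Pool.Agent.Results.MP_ec8146_lc.No
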